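import Pool.Agent.Q5.Tori.Maximal

set_option autoImplicit false

namespace Pool.Agent.Results.MP_629379_al.InfinitelyManyOrbits

open Matrix Q5.Tori

variable {K : Type*} [Field K]

/-! ### Computations modulo the center -/

theorem mk_tri (c : Kˣ) (y : K) :
    (QuotientGroup.mk (tri c c (c * y)) : GL (Fin 2) K ⧸ Subgroup.center (GL (Fin 2) K)) =
      QuotientGroup.mk (tri 1 1 y) := by
  have h : tri c c (c * y) = tri 1 1 y * tri c c 0 := by
    rw [tri_mul]
    congr 1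
    · simp
    · simp
    · simp
      ring
  have hc : tri c c 0 ∈ Subgroup.center (GL (Fin 2) K) :=
    mem_center_of (by simp [tri_val]) (by simp [tri_val]) (by simp [tri_val])
  rw [h, QuotientGroup.mk_mul, (QuotientGroup.eq_one_iff _).mpr hc, mul_one]

theorem tri_pow (y : K) (m : ℕ) : (tri 1 1 y) ^ m = tri 1 1 (m * y) := by
  induction m with
  | zero => rw [pow_zero, ← tri_one]; simp
  | succ m ih =>
    rw [pow_succ, ih, tri_mul]
    congr 1
    · simp
    · simp
    · push_cast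
      ring

theorem exists_tri_pow (a b : Kˣ) (x : K) (m : ℕ) : ∃ x', (tri a b x) ^ m = tri (a ^ m) (b ^ m) x' := by
  induction m with
  | zero => exact ⟨0, by rw [pow_zero, pow_zero, pow_zero, tri_one]⟩
  | succ m ih =>
    obtain ⟨x', hx'⟩ := ih
    exact ⟨_, by rw [pow_succ, hx', tri_mul, ← pow_succ, ← pow_succ]⟩

/-- The relation between the components of the elements of `T_m`. -/
theorem relation (m : ℕ) (h : G K 2 4) (hh : h ∈ T K m) :
    (QuotientGroup.mk (h 0) : GL (Fin 2) K ⧸ Subgroup.center (GL (Fin 2) K)) *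
      (QuotientGroup.mk (h 2))⁻¹ = (QuotientGroup.mk (h 0) * QuotientGroup.mk (h 1)) ^ m := by
  obtain ⟨t, rfl⟩ := hh
  have h0 : Phi K m t 0 = tri (t 1 * t 0) (t 1) 0 := by
    rw [Phi_apply]
    simp [bb, ee, cen]
  have h1 : Phi K m t 1 = tri (t 2 * (t 0)⁻¹) (t 2) ((t 2 : K) - t 2 * (t 0 : K)⁻¹) := by
    rw [Phi_apply]
    simp [bb, ee, cen]
  have h2 : Phi K m t 2 = tri (t 3 * t 0) (t 3) (m * ((t 3 : K) - t 3 * (t 0 : K))) := by
    rw [Phi_apply]
    simp [bb, ee, cen]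
  have e1 : Phi K m t 0 * (Phi K m t 2)⁻¹ =
      tri (t 1 * (t 3)⁻¹) (t 1 * (t 3)⁻¹) (((t 1 * (t 3)⁻¹ : Kˣ) : K) * (m * ((t 0 : K) - 1))) := by
    rw [h0, h2, tri_inv, tri_mul]
    congr 1
    · rw [mul_inv]
      calc t 1 * t 0 * ((t 3)⁻¹ * (t 0)⁻¹) = t 1 * (t 3)⁻¹ * (t 0 * (t 0)⁻¹) := by ac_rfl
        _ = t 1 * (t 3)⁻¹ := by rw [mul_inv_cancel, mul_one]
    · push_cast
      field_simp
      ring
  have e2 : Phi K m t 0 * Phi K m t 1 =
      tri (t 1 * t 2) (t 1 * t 2) (((t 1 * t 2 : Kˣ) : K) * ((t 0 : K) - 1)) := by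
    rw [h0, h1, tri_mul]
    congr 1
    · calc t 1 * t 0 * (t 2 * (t 0)⁻¹) = t 1 * t 2 * (t 0 * (t 0)⁻¹) := by ac_rfl
        _ = t 1 * t 2 := by rw [mul_inv_cancel, mul_one]
    · push_cast
      field_simp
      ring
  rw [← QuotientGroup.mk_inv, ← QuotientGroup.mk_mul, ← QuotientGroup.mk_mul, e1, e2, mk_tri, mk_tri,
    ← QuotientGroup.mk_pow, tri_pow]

/-- Upper triangular matrices with lower right entry `1` are determined by their classes modulo
the center. -/
theorem mk_tri_inj [CharZero K] {p p' : Kˣ} {x x' : K}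
    (h : (QuotientGroup.mk (tri p 1 x) : GL (Fin 2) K ⧸ Subgroup.center (GL (Fin 2) K)) =
      QuotientGroup.mk (tri p' 1 x')) : p = p' ∧ x = x' := by
  rw [QuotientGroup.eq, tri_inv, tri_mul, Subgroup.mem_center_iff] at h
  have f1 := h (tri 1 1 1)
  rw [tri_mul, tri_mul] at f1
  have f2 := (tri_inj f1).2.2
  have f3 := h (tri (Units.mk0 2 two_ne_zero) 1 0)
  rw [tri_mul, tri_mul] at f3
  have f4 := (tri_inj f3).2.2
  have hp : (p : K) ≠ 0 := p.ne_zero
  simp at f2 f4
  field_simp at f2 f4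
  have f5 : x = x' := by linear_combination -f4
  refine ⟨Units.ext ?_, f5⟩
  linear_combination f2

/-- The converse computation: a relation of this shape determines the exponent. -/
theorem exponent [CharZero K] {m : ℕ} {k : ℕ} (hk : 2 ≤ k) (a b c : Fin 4)
    (hrel : ∀ h ∈ T K m,
      (QuotientGroup.mk (h a) : GL (Fin 2) K ⧸ Subgroup.center (GL (Fin 2) K)) *
      (QuotientGroup.mk (h c))⁻¹ = (QuotientGroup.mk (h a) * QuotientGroup.mk (h b)) ^ k) :
    cen K m a - cen K m c = k * (cen K m a - cen K m b) := by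
  set s := cen K m with hs
  let u : Kˣ := Units.mk0 2 two_ne_zero
  have hu : (u : K) = 2 := rfl
  let t0 : Fin 4 → Kˣ := ![u, 1, 1, 1]
  let e : Fin 4 → Kˣ := ![u, u⁻¹, u, u⁻¹]
  have he : ∀ i, e i = u ∨ e i = u⁻¹ := by
    intro i
    fin_cases i <;> simp [e]
  have hPhi : ∀ i, Phi K m t0 i = tri (e i) 1 (s i * (1 - e i)) := by
    intro i
    have h1 : bb t0 i = 1 := by fin_cases i <;> simp [bb, t0]
    have h2 : ee t0 i = e i := by fin_cases i <;> simp [ee, t0, e]
    rw [Phi_apply, h1, h2, one_mul]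
    simp [hs]
  have hpow : ∀ j : ℕ, 1 ≤ j → (u * u) ^ j ≠ 1 := by
    intro j hj h
    have h2 : ((4 : ℕ) : K) ^ j = 1 := by
      have h1 := congrArg Units.val h
      rw [Units.val_pow_eq_pow_val, Units.val_mul, hu, Units.val_one] at h1
      rw [← h1]
      congr 1
      norm_num
    have h3 : (4 : ℕ) ^ j = 1 := by exact_mod_cast h2
    have h4 : (4 : ℕ) ^ 1 ≤ 4 ^ j := Nat.pow_le_pow_right (by norm_num) hj
    omega
  have h1 := hrel (Phi K m t0) ⟨t0, rfl⟩
  rw [← QuotientGroup.mk_inv, ← QuotientGroup.mk_mul, ← QuotientGroup.mk_mul,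
    ← QuotientGroup.mk_pow] at h1
  rw [hPhi, hPhi, hPhi, tri_inv, tri_mul, tri_mul, inv_one, one_mul] at h1
  -- the case of a translation
  have main : e a * e b = 1 → s a - s c = k * (s a - s b) := by
    intro hab
    rw [hab, tri_pow] at h1
    obtain ⟨h2, h3⟩ := mk_tri_inj h1
    have hc : e c = e a := (mul_inv_eq_one.mp h2).symm
    have hb : (e b : K) = (e a : K)⁻¹ := by
      rw [mul_eq_one_iff_inv_eq.mp hab |>.symm]
      simp
    rw [hc, hb] at h3
    have hea : (e a : K) ≠ 0 := (e a).ne_zero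
    have hea1 : (1 - (e a : K)) ≠ 0 := by
      rcases he a with h | h
      · rw [h, hu]
        norm_num
      · rw [h, Units.val_inv_eq_inv_val, hu]
        norm_num
    apply mul_left_cancel₀ hea1
    simp only [Units.val_one, inv_one, mul_one] at h3
    field_simp at h3
    linear_combination h3
  -- the other cases
  have bad : e a * e b ≠ 1 → False := by
    intro hab
    obtain ⟨x', hx'⟩ := exists_tri_pow (e a * e b) 1
      ((e a : K) * (s b * (1 - (e b : K))) + s a * (1 - (e a : K)) * ((1 : Kˣ) : K)) k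
    rw [hx', one_pow] at h1
    obtain ⟨h2, _⟩ := mk_tri_inj h1
    obtain ⟨j, rfl⟩ : ∃ j, k = j + 2 := ⟨k - 2, by omega⟩
    have g1 := hpow (j + 2) (by omega)
    have g2 := hpow (j + 1) (by omega)
    rcases he a with ha | ha <;> rcases he b with hb | hb <;> rcases he c with hc | hc <;>
      rw [ha, hb] at hab <;> rw [ha, hb, hc] at h2
    · rw [mul_inv_cancel] at h2
      exact g1 h2.symm
    · rw [inv_inv, pow_succ, eq_comm, mul_eq_right] at h2
      exact g2 h2
    · exact hab (mul_inv_cancel u)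
    · exact hab (mul_inv_cancel u)
    · exact hab (inv_mul_cancel u)
    · exact hab (inv_mul_cancel u)
    · rw [← _root_.mul_inv_rev, inv_pow, _root_.inv_inj, pow_succ, eq_comm, mul_eq_right] at h2
      exact g2 h2
    · rw [inv_inv, inv_mul_cancel, ← _root_.mul_inv_rev, inv_pow, eq_comm, inv_eq_one] at h2
      exact g1 h2
  by_cases hab : e a * e b = 1
  · exact main hab
  · exact (bad hab).elim

theorem cen_injective [CharZero K] {m : ℕ} (hm : 3 ≤ m) : Function.Injective (cen K m) := by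
  obtain ⟨j, rfl⟩ : ∃ j, m = j + 3 := ⟨m - 3, by omega⟩
  have h : cen K (j + 3) = fun i => (((![0, 1, j + 3, j + 2] : Fin 4 → ℕ) i : ℕ) : K) := by
    funext i
    fin_cases i
    · simp [cen]
    · simp [cen]
    · simp [cen]
    · simp [cen]
      ring
  rw [h]
  intro a b hab
  have h1 : (![0, 1, j + 3, j + 2] : Fin 4 → ℕ) a = (![0, 1, j + 3, j + 2] : Fin 4 → ℕ) b :=
    Nat.cast_injective (R := K) hab
  fin_cases a <;> fin_cases b <;> simp at h1 ⊢

/-- The maximal tori contained in `{h | h_1 h_2 h_3 h_4 = 1} ⊆ GL_2^4` fall into infinitely many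
orbits. -/
theorem result (K : Type*) [Field K] [IsAlgClosed K] [CharZero K] :
    ∃ n r : ℕ, 1 ≤ n ∧ 1 ≤ r ∧ ∃ M : Fin (r + 1) → GL (Fin n) K, (∀ i, IsSemisimple (M i)) ∧
      ¬ FinitelyManyOrbits M := by
  refine ⟨2, 4, by norm_num, by norm_num, 1, fun i => ⟨1, ?_⟩, ?_⟩
  · have : (1 * (1 : Fin (4 + 1) → GL (Fin 2) K) i * 1⁻¹ : GL (Fin 2) K) = 1 := by simp
    rw [this]
    intro a b hab
    exact one_apply_ne hab
  rintro ⟨F, hF, hall⟩
  have hfin : Finite F := hF
  have h1 : ∀ j : ℕ, ∃ S : F, ∃ σ ∈ H (1 : Fin (4 + 1) → GL (Fin 2) K),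
      S.1.map σ.toMonoidHom = T K (j + 3) := by
    intro j
    obtain ⟨S, hS, σ, hσ, h⟩ := hall (T K (j + 3)) (T_max (by omega))
    exact ⟨⟨S, hS⟩, σ, hσ, h⟩
  choose S σ hσ hS using h1
  obtain ⟨S0, hS0⟩ := Finite.exists_infinite_fiber S
  have hinf : (S ⁻¹' {S0}).Infinite := Set.infinite_coe_iff.mp hS0
  obtain ⟨j0, hj0⟩ := hinf.nonempty
  -- the automorphisms mapping the first torus to the others
  let τ : ℕ → ((Fin 4 → GL (Fin 2) K) ≃* (Fin 4 → GL (Fin 2) K)) :=
    fun j => (σ j0).symm.trans (σ j)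
  have hτX : ∀ j, ∀ h : Fin 4 → GL (Fin 2) K, h 0 * (h 1 * (h 2 * h 3)) = 1 →
      τ j h 0 * (τ j h 1 * (τ j h 2 * τ j h 3)) = 1 := by
    intro j h hh
    have h2 : (h : G K 2 4) ∈ X (1 : Fin (4 + 1) → GL (Fin 2) K) := (mem_X_iff h).mpr hh
    rw [← (hσ j0).2] at h2
    obtain ⟨g, hg, rfl⟩ := h2
    have h3 : τ j (σ j0 g) = σ j g := by
      show σ j ((σ j0).symm (σ j0 g)) = σ j g
      rw [MulEquiv.symm_apply_apply]
    rw [h3]
    have h4 : σ j g ∈ X (1 : Fin (4 + 1) → GL (Fin 2) K) := by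
      rw [← (hσ j).2]
      exact ⟨g, hg, rfl⟩
    exact (mem_X_iff _).mp h4
  have hτT : ∀ j ∈ S ⁻¹' {S0}, ∀ h ∈ T K (j0 + 3), (τ j h : G K 2 4) ∈ T K (j + 3) := by
    intro j hj h hh
    rw [← hS j0] at hh
    obtain ⟨g, hg, rfl⟩ := hh
    have h3 : τ j (σ j0 g) = σ j g := by
      show σ j ((σ j0).symm (σ j0 g)) = σ j g
      rw [MulEquiv.symm_apply_apply]
    have h4 : (τ j ((σ j0).toMonoidHom g) : G K 2 4) = σ j g := h3
    rw [h4, ← hS j]
    have hSj : S j = S j0 := by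
      rw [Set.mem_preimage, Set.mem_singleton_iff] at hj hj0
      rw [hj, hj0]
    rw [hSj]
    exact ⟨g, hg, rfl⟩
  -- pigeonhole on the permutations
  obtain ⟨i, hi, j, hj, hij, hperm⟩ := hinf.exists_ne_map_eq_of_mapsTo
    (f := fun j => perm (τ j)) (t := Set.univ) (fun _ _ => Set.mem_univ _) Set.finite_univ
  have key : ∀ j ∈ S ⁻¹' {S0},
      cen K (j0 + 3) (perm (τ j) 0) - cen K (j0 + 3) (perm (τ j) 2) =
        ((j + 3 : ℕ) : K) * (cen K (j0 + 3) (perm (τ j) 0) - cen K (j0 + 3) (perm (τ j) 1)) := by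
    intro j hj
    apply exponent (by omega)
    have main : ∀ h : Fin 4 → GL (Fin 2) K, (h : G K 2 4) ∈ T K (j0 + 3) →
      (QuotientGroup.mk (h (perm (τ j) 0)) : GL (Fin 2) K ⧸ Subgroup.center (GL (Fin 2) K)) *
      (QuotientGroup.mk (h (perm (τ j) 2)))⁻¹ =
      (QuotientGroup.mk (h (perm (τ j) 0)) * QuotientGroup.mk (h (perm (τ j) 1))) ^ (j + 3) := ?_
    · exact main
    intro h hh
    have h1 : (QuotientGroup.mk (τ j h 0) : GL (Fin 2) K ⧸ Subgroup.center (GL (Fin 2) K)) *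
      (QuotientGroup.mk (τ j h 2))⁻¹ =
      (QuotientGroup.mk (τ j h 0) * QuotientGroup.mk (τ j h 1)) ^ (j + 3) :=
      relation (j + 3) _ (hτT j hj h hh)
    rw [mk_apply, mk_apply, mk_apply, comp_eq (τ j) (hτX j) 2 0, comp_eq (τ j) (hτX j) 1 0] at h1
    rw [← map_inv, ← map_mul, ← map_mul, ← map_pow, ← mul_inv_eq_one, ← map_inv, ← map_mul] at h1
    have h2 := comp_eq_one (τ j) h1
    rw [← QuotientGroup.eq_one_iff, QuotientGroup.mk_mul, QuotientGroup.mk_inv,
      mul_inv_eq_one] at h2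
    rw [← QuotientGroup.mk_inv, ← QuotientGroup.mk_mul, ← QuotientGroup.mk_mul,
      ← QuotientGroup.mk_pow]
    exact h2
  have k1 := key i hi
  have k2 := key j hj
  have hperm' : perm (τ i) = perm (τ j) := hperm
  rw [hperm'] at k1
  have hne : cen K (j0 + 3) (perm (τ j) 0) - cen K (j0 + 3) (perm (τ j) 1) ≠ 0 := by
    rw [sub_ne_zero]
    intro h
    have h1 := cen_injective (K := K) (m := j0 + 3) (by omega) h
    have h2 := (perm_bijective (τ j)).injective h1
    exact absurd h2 (by decide)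
  have h3 : ((i + 3 : ℕ) : K) = ((j + 3 : ℕ) : K) := mul_right_cancel₀ hne (k1.symm.trans k2)
  have h4 : i + 3 = j + 3 := by exact_mod_cast h3
  exact hij (by omega)

end Pool.Agent.Results.MP_629379_al.InfinitelyManyOrbits
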